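import Pool.Agent.L0h87.LE.Stm

/-! # LE/HYB: replacing the functions in a linear equation one after the other -/

set_option autoImplicit false

namespace Pool.Agent.L0h39.LE

open Finset Pool.Agent.L0h87.LE

theorem G_update {k : ℕ} (a : Fin k → ℤ) (N : ℕ) (n : ℤ) (W : Fin k → ℕ → ℝ) (j : Fin k) (f : ℕ → ℝ) :
    G a N n (Function.update W j f) =
      ∑ m ∈ (Fintype.piFinset fun _ : Fin k => odds N).filter (fun m => ∑ i, a i * (m i : ℤ) = n),
        f (m j) * ∏ i ∈ univ.erase j, W i (m i) := by
  unfold G
  refine Finset.sum_congr rfl fun m _ => ?_
  rw [← Finset.mul_prod_erase univ _ (mem_univ j), Function.update_self]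
  congr 1
  refine Finset.prod_congr rfl fun i hi => ?_
  rw [Function.update_of_ne (Finset.ne_of_mem_erase hi)]

theorem G_sub {k : ℕ} (a : Fin k → ℤ) (N : ℕ) (n : ℤ) (W : Fin k → ℕ → ℝ) (j : Fin k) (f g : ℕ → ℝ) :
    G a N n (Function.update W j f) - G a N n (Function.update W j g) =
      G a N n (Function.update W j (fun m => f m - g m)) := by
  rw [G_update, G_update, G_update, ← Finset.sum_sub_distrib]
  refine Finset.sum_congr rfl fun m _ => ?_
  ring

theorem hyb (hC : CIR) : HYB := by
  intro k hk a ha N n C E u v hC0 hE hu hv hS
  have key : ∀ s : Finset (Fin k), |G a N n u - G a N n (s.piecewise v u)| ≤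
      s.card * (E * (2 * C) ^ (k - 1) * N ^ (k - 2)) := by
    intro s
    induction s using Finset.induction_on with
    | empty => simp
    | insert j s hj ih =>
      have h1 : s.piecewise v u = Function.update (s.piecewise v u) j (u j) := by
        rw [← Finset.piecewise_eq_of_notMem s v u hj, Function.update_eq_self]
      have h2 : G a N n (s.piecewise v u) - G a N n ((insert j s).piecewise v u) =
          G a N n (Function.update (s.piecewise v u) j (fun m => u j m - v j m)) := by
        rw [Finset.piecewise_insert, ← G_sub, ← h1]
      have h3 : |G a N n (Function.update (s.piecewise v u) j (fun m => u j m - v j m))| ≤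
          E * (2 * C) ^ (k - 1) * N ^ (k - 2) := by
        refine hC k hk a ha N n (2 * C) E _ j (by linarith) hE ?_ ?_
        · intro i m
          by_cases hij : i = j
          · subst hij
            rw [Function.update_self]
            calc |u i m - v i m| ≤ |u i m| + |v i m| := abs_sub _ _
              _ ≤ 2 * C := by linarith [hu i m, hv i m]
          · rw [Function.update_of_ne hij]
            by_cases his : i ∈ s
            · rw [Finset.piecewise_eq_of_mem s v u his]
              linarith [hv i m]
            · rw [Finset.piecewise_eq_of_notMem s v u his]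
              linarith [hu i m]
        · intro α
          rw [Function.update_self]
          exact hS j α
      rw [Finset.card_insert_of_notMem hj]
      push_cast
      calc |G a N n u - G a N n ((insert j s).piecewise v u)|
          = |(G a N n u - G a N n (s.piecewise v u)) +
              (G a N n (s.piecewise v u) - G a N n ((insert j s).piecewise v u))| := by
            congr 1; ring
        _ ≤ |G a N n u - G a N n (s.piecewise v u)| +
              |G a N n (s.piecewise v u) - G a N n ((insert j s).piecewise v u)| := abs_add_le _ _
        _ ≤ s.card * (E * (2 * C) ^ (k - 1) * N ^ (k - 2)) +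
              E * (2 * C) ^ (k - 1) * N ^ (k - 2) := by
            rw [h2]
            exact add_le_add ih h3
        _ = (s.card + 1) * (E * (2 * C) ^ (k - 1) * N ^ (k - 2)) := by ring
  have h := key univ
  rw [Finset.piecewise_univ, Finset.card_univ, Fintype.card_fin] at h
  exact h

end Pool.Agent.L0h39.LE
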